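import Pool.Agent.LIQuasi.Key
import Pool.Agent.LIQuasi.Example
import Pool.Agent.LIQuasi.CK

/-!
MP_b18726_al, Q1 (independent quasi-identity bases of the right-orderable groups among the
torsion-free groups).  Notions (files `Core.lean`, `Key.lean`, `BH.lean` of `Pool/Agent/LIQuasi/`):

* `QId`, `QId.Holds` : quasi-identities and their validity in a group;
* `RO` : right-orderable; `TF` : torsion-free;
* `DefinesRO S X` : within the class `X`, a group is right-orderable iff it satisfies all members
  of `S`;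
* `Independent S X` : for each `q ∈ S` some group of `X` satisfies `S \ {q}` but not `q`;
* `PowerClosed X` : with `G` the class `X` contains every group embeddable in a finite direct
  power of `G`.
-/

namespace Pool.Agent.Results.MP_b18726_al.SolubleRO

open Pool.LIQuasi

/-- `S` defines the right-orderable groups within `X`. -/
def DefinesRO (S : Set QId) (X : (G : Type) → [Group G] → Prop) : Prop :=
  ∀ (G : Type) [Group G], X G → (RO G ↔ ∀ q ∈ S, q.Holds G)

theorem derived_bot_power {G H ι : Type} [Group G] [Group H] (f : H →* (ι → G))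
    (hf : Function.Injective f) (l : ℕ) (h : derivedSeries G l = ⊥) : derivedSeries H l = ⊥ := by
  rw [eq_bot_iff]
  intro x hx
  rw [Subgroup.mem_bot]
  apply hf
  rw [map_one]
  funext i
  let fi : H →* G := (Pi.evalMonoidHom (fun _ : ι => G) i).comp f
  have h1 : fi x ∈ derivedSeries G l :=
    map_derivedSeries_le_derivedSeries fi l ⟨x, hx, rfl⟩
  rw [h, Subgroup.mem_bot] at h1
  exact h1

theorem tf_power {G H ι : Type} [Group G] [Group H] (f : H →* (ι → G))
    (hf : Function.Injective f) (h : TF G) : TF H := by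
  intro x n hn hx
  apply hf
  rw [map_one]
  funext i
  let fi : H →* G := (Pi.evalMonoidHom (fun _ : ι => G) i).comp f
  exact h (fi x) n hn (by rw [← map_pow, hx, map_one])

theorem LI_of_bot {G : Type} [Group G] (U : Subgroup G) (h : U = ⊥) : LI U := by
  subst h
  intro K _ hne
  exfalso
  apply hne
  rw [eq_bot_iff]
  intro x _
  rw [Subgroup.mem_bot]
  exact Subsingleton.elim _ _

/-- a soluble group that is not right-orderable violates members of `S` with arbitrarily many
variables. -/
theorem fail_large_RO (X : (G : Type) → [Group G] → Prop) (hX : PowerClosed X) (S : Set QId)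
    (hS : DefinesRO S X) (G : Type) [Group G] (hXG : X G) (htf : TF G) (hG : ¬ RO G)
    (hs : Group.IsSolvable G) (m : ℕ) : ∃ q ∈ S, m < q.vars ∧ ¬ q.Holds G := by
  obtain ⟨l, hl⟩ := hs.solvable
  have hGLI : ¬ LI G := fun h => hG h.ro
  obtain ⟨ι, hι, H, iH, f, hf, -, hH, hsmall⟩ := key htf hGLI ⟨l, LI_of_bot _ hl⟩ m
  have hXH : X H := hX G H ι f hf hXG
  have hHs : Group.IsSolvable H := ⟨⟨l, derived_bot_power f hf l hl⟩⟩
  have hHRO : ¬ RO H := fun h => hH (h.li hHs)
  have h1 := (hS H hXH).not.1 hHRO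
  push Not at h1
  obtain ⟨q, hq, hqH⟩ := h1
  refine ⟨q, hq, ?_, fun h => hqH (h.power f hf)⟩
  by_contra hle
  push Not at hle
  apply hqH
  intro x hx
  have hL := (hsmall q.vars hle x).ro
  have hXL : X (Subgroup.closure (Set.range x)) :=
    Subgroup_closed hX (Subgroup.subtype _) (Subgroup.subtype_injective _) hXH
  have hqL := (hS _ hXL).1 hL q hq
  let x' : Fin q.vars → Subgroup.closure (Set.range x) :=
    fun j => ⟨x j, Subgroup.subset_closure ⟨j, rfl⟩⟩
  have e : ∀ u, FreeGroup.lift x u = (FreeGroup.lift x' u : Subgroup.closure (Set.range x)) := by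
    intro u
    exact lift_hom (Subgroup.closure (Set.range x)).subtype x' u
  rw [e]
  rw [hqL x' (by
    intro u hu
    apply Subtype.ext
    rw [← e, hx u hu]; rfl)]
  rfl

theorem main (X : (G : Type) → [Group G] → Prop) (hX : PowerClosed X)
    (hXt : ∀ (G : Type) [Group G], X G → TF G) (S : Set QId) (hS : DefinesRO S X) (m : ℕ)
    (W : Type) [Group W] (hW : X W) (hq : ∀ q ∈ S, m < q.vars → q.Holds W)
    (U : Subgroup W) (hl : Group.IsSolvable U) : RO U := by
  by_contra hU
  have hXU : X U := Subgroup_closed hX U.subtype U.subtype_injective hW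
  obtain ⟨q, hqS, hqm, hqU⟩ := fail_large_RO X hX S hS U hXU (hXt U hXU) hU hl m
  apply hqU
  refine (hq q hqS hqm).power (ι := Unit) ⟨⟨fun h _ => (h : W), by funext _; simp⟩, ?_⟩ ?_
  · intro a b
    funext _
    simp
  · intro a b hab
    apply Subtype.ext
    exact congrFun hab ()

theorem not_indep (X : (G : Type) → [Group G] → Prop) (hX : PowerClosed X)
    (hXt : ∀ (G : Type) [Group G], X G → TF G ∧ Group.IsSolvable G)
    (hne : ∃ (G : Type) (_ : Group G), X G ∧ ¬ RO G)
    (S : Set QId) (hS : DefinesRO S X) :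
    (∀ m : ℕ, DefinesRO {q ∈ S | m < q.vars} X) ∧ ¬ Independent S X := by
  have h1 : ∀ m : ℕ, DefinesRO {q ∈ S | m < q.vars} X := by
    intro m G _ hG
    refine ⟨fun h q hq => (hS G hG).1 h q hq.1, fun h => ?_⟩
    by_contra hRO
    obtain ⟨q, hq, hqm, hqG⟩ := fail_large_RO X hX S hS G hG (hXt G hG).1 hRO (hXt G hG).2 m
    exact hqG (h q ⟨hq, hqm⟩)
  refine ⟨h1, fun hind => ?_⟩
  obtain ⟨G, _, hG, hGRO⟩ := hne
  have h2 := (hS G hG).not.1 hGRO
  push Not at h2
  obtain ⟨q, hq, -⟩ := h2
  obtain ⟨W, _, hW, hWr, hWq⟩ := hind q hq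
  have h3 : RO W := by
    refine (h1 q.vars W hW).2 fun r hr => hWr r hr.1 ?_
    rintro rfl
    exact lt_irrefl _ hr.2
  exact hWq ((hS W hW).1 h3 q hq)

/-- MP_b18726_al, Q1: no independent basis of quasi-identities exists relative to the torsion-free
soluble groups (all of them, or those of derived length at most `l`, for each `l ≥ 2`); in any
class of torsion-free groups closed under subgroups of finite direct powers (for example in the
class of all torsion-free groups), omitting from a defining set all quasi-identities with at most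
`m` variables cannot be noticed by soluble groups. -/
theorem result :
    (∀ X : (G : Type) → [Group G] → Prop, PowerClosed X → (∀ (G : Type) [Group G], X G → TF G) →
      ∀ S : Set QId, DefinesRO S X → ∀ (m : ℕ) (W : Type) [Group W], X W →
      (∀ q ∈ S, m < q.vars → q.Holds W) → ∀ U : Subgroup W, Group.IsSolvable U → RO U) ∧
    (∀ S : Set QId, DefinesRO S (fun G _ => TF G ∧ Group.IsSolvable G) →
      (∀ m : ℕ, DefinesRO {q ∈ S | m < q.vars} (fun G _ => TF G ∧ Group.IsSolvable G)) ∧
      ¬ Independent S (fun G _ => TF G ∧ Group.IsSolvable G)) ∧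
    (∀ l : ℕ, 2 ≤ l → ∀ S : Set QId, DefinesRO S (fun G _ => TF G ∧ derivedSeries G l = ⊥) →
      (∀ m : ℕ, DefinesRO {q ∈ S | m < q.vars} (fun G _ => TF G ∧ derivedSeries G l = ⊥)) ∧
      ¬ Independent S (fun G _ => TF G ∧ derivedSeries G l = ⊥)) := by
  have hPs : Group.IsSolvable P := ⟨⟨2, P_metabelian⟩⟩
  have hPRO : ¬ RO P := fun h => P_not_LI (h.li hPs)
  refine ⟨?_, ?_, ?_⟩
  · intro X hX hXt S hS m W _ hW hq U hl
    exact main X hX hXt S hS m W hW hq U hl
  · intro S hS
    refine not_indep _ ?_ (fun G _ h => h) ?_ S hS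
    · intro G H ι _ _ _ f hf h
      refine ⟨tf_power f hf h.1, ?_⟩
      obtain ⟨n, hn⟩ := h.2
      exact ⟨⟨n, derived_bot_power f hf n hn⟩⟩
    · exact ⟨P, inferInstance, ⟨P_tf, hPs⟩, hPRO⟩
  · intro l hl S hS
    refine not_indep _ ?_ ?_ ?_ S hS
    · intro G H ι _ _ _ f hf h
      exact ⟨tf_power f hf h.1, derived_bot_power f hf l h.2⟩
    · intro G _ h
      exact ⟨h.1, ⟨⟨l, h.2⟩⟩⟩
    · refine ⟨P, inferInstance, ⟨P_tf, ?_⟩, hPRO⟩
      rw [eq_bot_iff]
      have : derivedSeries P l ≤ derivedSeries P 2 := derivedSeries_antitone P hl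
      rw [P_metabelian] at this
      exact this

end Pool.Agent.Results.MP_b18726_al.SolubleRO
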